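import Pool.Agent.H69.Ball.Basic
import Pool.Agent.H95.Ball.Moment

/-!
# Slice expansion on the ball algebra: averages over unitary maps
-/

open Metric Filter Topology MeasureTheory

namespace Pool.Agent.H69.Ball.Slice

theorem integral_comp_isometry {n : ℕ} (U : E n ≃ₗᵢ[ℂ] E n) (F : E n → ℂ) :
    ∫ w in ball (0 : E n) 1, F (U w) = ∫ w in ball (0 : E n) 1, F w := by
  let V : E n ≃ₗᵢ[ℝ] E n :=
    { toLinearEquiv := U.toLinearEquiv.restrictScalars ℝ, norm_map' := U.norm_map }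
  have h := V.measurePreserving
  have hV : ∀ w, U w = V w := fun _ => rfl
  simp only [hV]
  have hpre : V ⁻¹' (ball (0 : E n) 1) = ball (0 : E n) 1 := by
    ext w
    rw [Set.mem_preimage, mem_ball_zero_iff, mem_ball_zero_iff, V.norm_map]
  have h2 := h.setIntegral_preimage_emb V.toHomeomorph.measurableEmbedding F (ball (0 : E n) 1)
  rw [hpre] at h2
  exact h2

theorem swap {n : ℕ} {F : ℝ → E n → ℂ}
    (hF : ContinuousOn (Function.uncurry F) (Set.univ ×ˢ ball (0 : E n) 1)) (C : ℝ)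
    (hC : ∀ θ, ∀ w ∈ ball (0 : E n) 1, ‖F θ w‖ ≤ C) :
    ∫ θ in (0 : ℝ)..2 * Real.pi, ∫ w in ball (0 : E n) 1, F θ w =
      ∫ w in ball (0 : E n) 1, ∫ θ in (0 : ℝ)..2 * Real.pi, F θ w := by
  have hmeas : MeasurableSet (Set.uIoc (0 : ℝ) (2 * Real.pi) ×ˢ ball (0 : E n) 1) :=
    measurableSet_uIoc.prod measurableSet_ball
  apply intervalIntegral_integral_swap
  rw [Measure.prod_restrict]
  have hfin : IsFiniteMeasure (((volume : Measure ℝ).prod (volume : Measure (E n))).restrict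
      (Set.uIoc (0 : ℝ) (2 * Real.pi) ×ˢ ball (0 : E n) 1)) := by
    refine ⟨?_⟩
    rw [Measure.restrict_apply_univ, Measure.prod_prod]
    refine ENNReal.mul_lt_top ?_ measure_ball_lt_top
    rw [Set.uIoc_of_le (by positivity)]
    exact measure_Ioc_lt_top
  have hcont : ContinuousOn (Function.uncurry F)
      (Set.uIoc (0 : ℝ) (2 * Real.pi) ×ˢ ball (0 : E n) 1) :=
    hF.mono (Set.prod_mono (Set.subset_univ _) subset_rfl)
  refine Integrable.of_bound (hcont.aestronglyMeasurable hmeas) C ?_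
  rw [ae_restrict_iff' hmeas]
  exact Filter.Eventually.of_forall fun p hp => hC p.1 p.2 hp.2

theorem avg {n : ℕ} {F : E n → ℂ} (hF : ContinuousOn F (ball (0 : E n) 1)) (C : ℝ)
    (hC : ∀ w ∈ ball (0 : E n) 1, ‖F w‖ ≤ C) (U : ℝ → E n ≃ₗᵢ[ℂ] E n)
    (hU : Continuous fun p : ℝ × E n => U p.1 p.2) :
    ∫ w in ball (0 : E n) 1, F w = ∫ w in ball (0 : E n) 1,
      ((2 * Real.pi : ℝ) : ℂ)⁻¹ * ∫ θ in (0 : ℝ)..2 * Real.pi, F (U θ w) := by
  have hmaps : ∀ θ, ∀ w ∈ ball (0 : E n) 1, U θ w ∈ ball (0 : E n) 1 := by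
    intro θ w hw
    rw [mem_ball_zero_iff, LinearIsometryEquiv.norm_map]
    exact mem_ball_zero_iff.1 hw
  have h1 := swap (n := n) (F := fun θ w => F (U θ w))
    (hF.comp hU.continuousOn (fun p hp => hmaps p.1 p.2 hp.2)) C
    (fun θ w hw => hC _ (hmaps θ w hw))
  simp only [integral_comp_isometry, intervalIntegral.integral_const, sub_zero] at h1
  rw [integral_const_mul, ← h1]
  rw [Complex.real_smul, inv_mul_cancel_left₀]
  exact_mod_cast (by positivity : (2 * Real.pi : ℝ) ≠ 0)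

/-- Fourier coefficients of a function holomorphic on the closed unit disc. -/
theorem coef {h : ℂ → ℂ} (hd : DifferentiableOn ℂ h (closedBall 0 1)) (k : ℕ) :
    ((2 * Real.pi : ℝ) : ℂ)⁻¹ * ∫ θ in (0 : ℝ)..2 * Real.pi,
      (circleMap 0 1 θ)⁻¹ ^ k * h (circleMap 0 1 θ) = (k.factorial : ℂ)⁻¹ * iteratedDeriv k h 0 := by
  have h1 := hd.circleIntegral_one_div_sub_center_pow_smul one_pos k
  have h2 : (∮ z in C(0, 1), (1 / (z - 0) ^ (k + 1)) • h z) =
      Complex.I * ∫ θ in (0 : ℝ)..2 * Real.pi, (circleMap 0 1 θ)⁻¹ ^ k * h (circleMap 0 1 θ) := by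
    rw [circleIntegral, ← intervalIntegral.integral_const_mul]
    congr 1
    funext θ
    have h3 : circleMap 0 1 θ ≠ 0 := by simp [circleMap]
    rw [deriv_circleMap]
    simp only [sub_zero, smul_eq_mul, one_div, inv_pow, pow_succ]
    field_simp
  rw [h2] at h1
  have hpi : (Real.pi : ℂ) ≠ 0 := by exact_mod_cast Real.pi_ne_zero
  have hk : (k.factorial : ℂ) ≠ 0 := by exact_mod_cast k.factorial_ne_zero
  have h4 : (∫ θ in (0 : ℝ)..2 * Real.pi, (circleMap 0 1 θ)⁻¹ ^ k * h (circleMap 0 1 θ)) =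
      (2 * Real.pi / k.factorial) * iteratedDeriv k h 0 := by
    have h5 : Complex.I * (∫ θ in (0 : ℝ)..2 * Real.pi,
        (circleMap 0 1 θ)⁻¹ ^ k * h (circleMap 0 1 θ)) =
        Complex.I * ((2 * Real.pi / k.factorial) * iteratedDeriv k h 0) := by
      rw [h1, smul_eq_mul]
      ring
    exact mul_left_cancel₀ Complex.I_ne_zero h5
  rw [h4]
  push_cast
  field_simp

section rot

variable {n : ℕ} (z : E n)

theorem perp_inner (hz : ‖z‖ = 1) (w : E n) :
    (inner ℂ z (w - (inner ℂ z w : ℂ) • z) : ℂ) = 0 := by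
  rw [inner_sub_right, inner_smul_right, inner_self_eq_norm_sq_to_K, hz]
  simp

theorem norm_split (hz : ‖z‖ = 1) (a c : ℂ) (w : E n) :
    ‖a • z + c • (w - (inner ℂ z w : ℂ) • z)‖ ^ 2 =
      ‖a‖ ^ 2 + ‖c‖ ^ 2 * ‖w - (inner ℂ z w : ℂ) • z‖ ^ 2 := by
  have h := norm_add_sq_eq_norm_sq_add_norm_sq_of_inner_eq_zero (𝕜 := ℂ) (a • z)
    (c • (w - (inner ℂ z w : ℂ) • z)) (by
      rw [inner_smul_left, inner_smul_right, perp_inner z hz, mul_zero, mul_zero])
  simp only [← pow_two] at h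
  rw [h, norm_smul, norm_smul, hz, mul_one, mul_pow]

theorem norm_sq_eq (hz : ‖z‖ = 1) (w : E n) :
    ‖w‖ ^ 2 = ‖(inner ℂ z w : ℂ)‖ ^ 2 + ‖w - (inner ℂ z w : ℂ) • z‖ ^ 2 := by
  have h := norm_split z hz (inner ℂ z w : ℂ) 1 w
  rw [one_smul, add_sub_cancel, norm_one, one_pow, one_mul] at h
  exact h

/-- The unitary map which fixes `z` and multiplies its orthogonal complement by `c`. -/
noncomputable def rotPerp (hz : ‖z‖ = 1) (c : ℂ) (hc : ‖c‖ = 1) : E n ≃ₗᵢ[ℂ] E n :=
  LinearIsometry.toLinearIsometryEquiv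
    { toFun := fun w => (inner ℂ z w : ℂ) • z + c • (w - (inner ℂ z w : ℂ) • z)
      map_add' := fun v w => by
        rw [inner_add_right]
        module
      map_smul' := fun a w => by
        rw [inner_smul_right]
        simp only [RingHom.id_apply]
        module
      norm_map' := fun w => by
        have h1 := norm_split z hz (inner ℂ z w : ℂ) c w
        rw [hc, one_pow, one_mul, ← norm_sq_eq z hz w] at h1
        exact (sq_eq_sq₀ (norm_nonneg _) (norm_nonneg _)).1 h1 } rfl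

theorem rotPerp_apply (hz : ‖z‖ = 1) (c : ℂ) (hc : ‖c‖ = 1) (w : E n) :
    rotPerp z hz c hc w = (inner ℂ z w : ℂ) • z + c • (w - (inner ℂ z w : ℂ) • z) := rfl

/-- Multiplication by a unimodular scalar. -/
noncomputable def rotAll (n : ℕ) (c : ℂ) (hc : ‖c‖ = 1) : E n ≃ₗᵢ[ℂ] E n :=
  LinearIsometry.toLinearIsometryEquiv
    { toFun := fun w => c • w
      map_add' := fun v w => smul_add _ _ _
      map_smul' := fun a w => by
        simp only [RingHom.id_apply]
        module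
      norm_map' := fun w => by
        have h : ‖c • w‖ = ‖w‖ := by rw [norm_smul, hc, one_mul]
        exact h } rfl

theorem rotAll_apply (c : ℂ) (hc : ‖c‖ = 1) (w : E n) : rotAll n c hc w = c • w := rfl

end rot

theorem norm_circle (θ : ℝ) : ‖circleMap 0 1 θ‖ = 1 := by
  simp [circleMap, Complex.norm_exp_ofReal_mul_I]

theorem differentiableOn_slice {n : ℕ} {f : E n → ℂ}
    (hd : DifferentiableOn ℂ f (ball (0 : E n) 1)) {a v : E n} {s : Set ℂ}
    (hs : ∀ l ∈ s, a + l • v ∈ ball (0 : E n) 1) :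
    DifferentiableOn ℂ (fun l : ℂ => f (a + l • v)) s := by
  refine hd.comp ?_ hs
  exact ((differentiable_id.smul_const v).const_add a).differentiableOn

theorem iteratedDeriv_scale {g : ℂ → ℂ} (hg : DifferentiableOn ℂ g (ball 0 1)) (k : ℕ) {p : ℂ}
    (hp : ‖p‖ ≤ 1) :
    iteratedDeriv k (fun l => g (p * l)) 0 = p ^ k * iteratedDeriv k g 0 := by
  have h0 : (0 : ℂ) ∈ ball (0 : ℂ) 1 := mem_ball_self one_pos
  have h1 := iteratedDerivWithin_comp_const_smul (n := k) h0 isOpen_ball.uniqueDiffOn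
    (hg.contDiffOn isOpen_ball) p (fun l hl => by
      rw [mem_ball_zero_iff] at hl ⊢
      rw [norm_mul]
      nlinarith [norm_nonneg l, norm_nonneg p])
  rw [iteratedDerivWithin_of_isOpen isOpen_ball h0] at h1
  rw [mul_zero, iteratedDerivWithin_of_isOpen isOpen_ball h0] at h1
  exact h1

theorem slice_unit (n k : ℕ) (f : E n → ℂ)
    (hc : ContinuousOn f (closedBall (0 : E n) 1)) (hd : DifferentiableOn ℂ f (ball (0 : E n) 1))
    (z : E n) (hz : ‖z‖ = 1) :
    ∫ w in ball (0 : E n) 1, (inner ℂ w z : ℂ) ^ k * f w =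
      ((k.factorial : ℂ)⁻¹ * iteratedDeriv k (fun l : ℂ => f (l • z)) 0) *
        ((∫ w in ball (0 : E n) 1, ‖(inner ℂ w z : ℂ)‖ ^ (2 * k) : ℝ) : ℂ) := by
  obtain ⟨C, hC⟩ := (isCompact_closedBall (0 : E n) 1).exists_bound_of_continuousOn hc
  have hinner : ∀ w ∈ ball (0 : E n) 1, ‖(inner ℂ w z : ℂ)‖ < 1 := by
    intro w hw
    have h1 := norm_inner_le_norm (𝕜 := ℂ) w z
    rw [hz, mul_one] at h1
    exact h1.trans_lt (mem_ball_zero_iff.1 hw)
  have hinner' : ∀ w ∈ ball (0 : E n) 1, ‖(inner ℂ z w : ℂ)‖ < 1 := by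
    intro w hw
    rw [norm_inner_symm]
    exact hinner w hw
  have hmem : ∀ w ∈ ball (0 : E n) 1, (inner ℂ z w : ℂ) • z ∈ ball (0 : E n) 1 := by
    intro w hw
    rw [mem_ball_zero_iff, norm_smul, hz, mul_one]
    exact hinner' w hw
  have hpow : ∀ w ∈ ball (0 : E n) 1, ‖(inner ℂ w z : ℂ) ^ k‖ ≤ 1 := by
    intro w hw
    rw [norm_pow]
    exact pow_le_one₀ (norm_nonneg _) (hinner w hw).le
  have hfc : ContinuousOn f (ball (0 : E n) 1) := hd.continuousOn
  have hC' : ∀ w ∈ ball (0 : E n) 1, ‖f w‖ ≤ C := fun w hw => hC w (ball_subset_closedBall hw)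
  have hg : DifferentiableOn ℂ (fun l : ℂ => f (l • z)) (ball 0 1) := by
    have h1 := differentiableOn_slice hd (a := 0) (v := z) (s := ball 0 1) (fun l hl => by
      rw [zero_add, mem_ball_zero_iff, norm_smul, hz, mul_one]
      exact mem_ball_zero_iff.1 hl)
    simpa using h1
  -- first average
  have step1 : ∫ w in ball (0 : E n) 1, (inner ℂ w z : ℂ) ^ k * f w =
      ∫ w in ball (0 : E n) 1, (inner ℂ w z : ℂ) ^ k * f ((inner ℂ z w : ℂ) • z) := by
    rw [avg (F := fun w => (inner ℂ w z : ℂ) ^ k * f w) ?_ C ?_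
      (fun θ => rotPerp z hz (circleMap 0 1 θ) (norm_circle θ)) ?_]
    · refine setIntegral_congr_fun measurableSet_ball fun w hw => ?_
      simp only [rotPerp_apply]
      have h1 : ∀ c : ℂ, (inner ℂ ((inner ℂ z w : ℂ) • z + c • (w - (inner ℂ z w : ℂ) • z)) z : ℂ) =
          inner ℂ w z := by
        intro c
        rw [← inner_conj_symm, inner_add_right, inner_smul_right, inner_smul_right,
          perp_inner z hz, inner_self_eq_norm_sq_to_K, hz, mul_zero, add_zero]
        simp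
      simp only [h1]
      have h2 := coef (h := fun c => (inner ℂ w z : ℂ) ^ k *
        f ((inner ℂ z w : ℂ) • z + c • (w - (inner ℂ z w : ℂ) • z)))
        ((differentiableOn_slice hd (fun l hl => by
          have h3 := norm_split z hz (inner ℂ z w : ℂ) l w
          have h4 := norm_sq_eq z hz w
          have h5 : ‖l‖ ≤ 1 := mem_closedBall_zero_iff.1 hl
          have h6 : ‖l‖ ^ 2 ≤ 1 := pow_le_one₀ (norm_nonneg _) h5
          have h7 : ‖w‖ < 1 := mem_ball_zero_iff.1 hw
          rw [mem_ball_zero_iff]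
          have h8 : ‖(inner ℂ z w : ℂ) • z + l • (w - (inner ℂ z w : ℂ) • z)‖ ^ 2 < 1 := by
            rw [h3]
            have h9 : ‖w‖ ^ 2 < 1 := by nlinarith [norm_nonneg w]
            nlinarith [sq_nonneg ‖w - (inner ℂ z w : ℂ) • z‖]
          nlinarith [norm_nonneg ((inner ℂ z w : ℂ) • z + l • (w - (inner ℂ z w : ℂ) • z))])).const_mul
            ((inner ℂ w z : ℂ) ^ k)) 0
      simp only [pow_zero, one_mul, Nat.factorial_zero, Nat.cast_one, inv_one, iteratedDeriv_zero,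
        zero_smul, add_zero] at h2
      exact h2
    · exact ((continuous_id.inner continuous_const).pow k).continuousOn.mul hfc
    · intro w hw
      rw [norm_mul]
      calc ‖(inner ℂ w z : ℂ) ^ k‖ * ‖f w‖ ≤ 1 * C :=
            mul_le_mul (hpow w hw) (hC' w hw) (norm_nonneg _) zero_le_one
        _ = C := one_mul _
    · simp only [rotPerp_apply]
      have h1 : Continuous (fun p : ℝ × E n => (inner ℂ z p.2 : ℂ)) :=
        continuous_const.inner continuous_snd
      have h2 : Continuous (fun p : ℝ × E n => circleMap 0 1 p.1) :=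
        (continuous_circleMap 0 1).comp continuous_fst
      exact (h1.smul continuous_const).add (h2.smul (continuous_snd.sub (h1.smul continuous_const)))
  -- second average
  rw [step1, avg (F := fun w => (inner ℂ w z : ℂ) ^ k * f ((inner ℂ z w : ℂ) • z)) ?_ C ?_
      (fun θ => rotAll n (circleMap 0 1 θ) (norm_circle θ)) ?_]
  · rw [← integral_complex_ofReal, ← integral_const_mul]
    refine setIntegral_congr_fun measurableSet_ball fun w hw => ?_
    simp only [rotAll_apply]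
    have hp := hinner' w hw
    have h1 : ∀ θ : ℝ, (inner ℂ (circleMap 0 1 θ • w) z : ℂ) =
        (circleMap 0 1 θ)⁻¹ * inner ℂ w z := by
      intro θ
      rw [inner_smul_left, Complex.inv_def, Complex.normSq_eq_norm_sq, norm_circle]
      simp
    have h2 := coef (h := fun c => (inner ℂ w z : ℂ) ^ k * f ((inner ℂ z w * c : ℂ) • z))
      (DifferentiableOn.const_mul (by
        refine hg.comp (f := fun c : ℂ => (inner ℂ z w * c : ℂ))
          (differentiable_id.const_mul _).differentiableOn (fun l hl => ?_)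
        rw [mem_ball_zero_iff, norm_mul]
        have h5 : ‖l‖ ≤ 1 := mem_closedBall_zero_iff.1 hl
        nlinarith [norm_nonneg l, norm_nonneg (inner ℂ z w : ℂ)]) _) k
    have h3 : ∀ θ : ℝ, (inner ℂ (circleMap 0 1 θ • w) z : ℂ) ^ k *
        f ((inner ℂ z (circleMap 0 1 θ • w) : ℂ) • z) = (circleMap 0 1 θ)⁻¹ ^ k *
          ((inner ℂ w z : ℂ) ^ k * f ((inner ℂ z w * circleMap 0 1 θ : ℂ) • z)) := by
      intro θ
      rw [h1, inner_smul_right, mul_pow, mul_comm (circleMap 0 1 θ) (inner ℂ z w : ℂ), mul_assoc]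
    simp only [h3]
    rw [h2, iteratedDeriv_const_mul_field, iteratedDeriv_scale hg k hp.le]
    have h4 : ((‖(inner ℂ w z : ℂ)‖ ^ (2 * k) : ℝ) : ℂ) =
        (inner ℂ w z : ℂ) ^ k * (inner ℂ z w : ℂ) ^ k := by
      rw [← mul_pow, ← inner_conj_symm z w, Complex.mul_conj, Complex.normSq_eq_norm_sq, pow_mul]
      push_cast
      rfl
    rw [h4]
    ring
  · have hcont0 : Continuous (fun w : E n => (inner ℂ z w : ℂ)) :=
      continuous_const.inner continuous_id
    have hcont : Continuous (fun w : E n => (inner ℂ z w : ℂ) • z) :=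
      hcont0.smul continuous_const
    exact ((continuous_id.inner continuous_const).pow k).continuousOn.mul
      (hfc.comp hcont.continuousOn hmem)
  · intro w hw
    rw [norm_mul]
    calc ‖(inner ℂ w z : ℂ) ^ k‖ * ‖f ((inner ℂ z w : ℂ) • z)‖ ≤ 1 * C :=
          mul_le_mul (hpow w hw) (hC' _ (hmem w hw)) (norm_nonneg _) zero_le_one
      _ = C := one_mul _
  · simp only [rotAll_apply]
    exact ((continuous_circleMap 0 1).comp continuous_fst).smul continuous_snd

theorem term_eq (n k : ℕ) (hn : 1 ≤ n) (f : E n → ℂ)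
    (hc : ContinuousOn f (closedBall (0 : E n) 1)) (hd : DifferentiableOn ℂ f (ball (0 : E n) 1))
    (z : E n) (l : ℂ) (u : E n) (hu : ‖u‖ = 1) (hzu : z = (‖z‖ : ℂ) • u) :
    l ^ k * (((Nat.choose (n + k) n : ℝ) / (volume (ball (0 : E n) 1)).toReal : ℝ) *
        ∫ w in ball (0 : E n) 1, (inner ℂ w z : ℂ) ^ k * f w) =
      ((k.factorial : ℂ)⁻¹ • (l * (‖z‖ : ℂ) - 0) ^ k •
        iteratedDeriv k (fun l : ℂ => f (l • u)) 0) := by
  have hvol : (volume (ball (0 : E n) 1)).toReal ≠ 0 :=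
    (ENNReal.toReal_pos (measure_ball_pos volume _ one_pos).ne' measure_ball_lt_top.ne).ne'
  have hch : (Nat.choose (n + k) n : ℝ) ≠ 0 := by
    exact_mod_cast (Nat.choose_pos (Nat.le_add_right n k)).ne'
  have h1 : ∫ w in ball (0 : E n) 1, (inner ℂ w z : ℂ) ^ k * f w =
      (‖z‖ : ℂ) ^ k * ∫ w in ball (0 : E n) 1, (inner ℂ w u : ℂ) ^ k * f w := by
    rw [← integral_const_mul]
    congr 1
    funext w
    conv_lhs => rw [hzu, inner_smul_right, mul_pow, mul_assoc]
  rw [h1, slice_unit n k f hc hd u hu, moment n k hn u, hu, one_pow, one_mul, sub_zero]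
  simp only [smul_eq_mul, mul_pow]
  push_cast
  have hvol' : ((volume (ball (0 : E n) 1)).toReal : ℂ) ≠ 0 := by exact_mod_cast hvol
  have hch' : (Nat.choose (n + k) n : ℂ) ≠ 0 := by exact_mod_cast hch
  have hk : (k.factorial : ℂ) ≠ 0 := by exact_mod_cast k.factorial_ne_zero
  field_simp

end Pool.Agent.H69.Ball.Slice

namespace Pool.Agent.H69.Ball

open Slice

/-- Slice expansion: the reproducing formula on the ball algebra. -/
theorem slice_expansion (n : ℕ) (hn : 1 ≤ n) (f : E n → ℂ)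
    (hc : ContinuousOn f (closedBall (0 : E n) 1)) (hd : DifferentiableOn ℂ f (ball (0 : E n) 1))
    (z : E n) (hz : ‖z‖ ≤ 1) (l : ℂ) (hl : ‖l‖ < 1) :
    HasSum (fun k : ℕ => l ^ k * (((Nat.choose (n + k) n : ℝ) /
      (volume (ball (0 : E n) 1)).toReal : ℝ) *
        ∫ w in ball (0 : E n) 1, (inner ℂ w z : ℂ) ^ k * f w)) (f (l • z)) := by
  obtain ⟨u, hu, hzu⟩ : ∃ u : E n, ‖u‖ = 1 ∧ z = (‖z‖ : ℂ) • u := by
    by_cases h0 : z = 0
    · refine ⟨EuclideanSpace.single ⟨0, hn⟩ 1, by simp, ?_⟩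
      rw [h0]
      simp
    · refine ⟨((‖z‖⁻¹ : ℝ) : ℂ) • z, ?_, ?_⟩
      · rw [norm_smul, Complex.norm_real, norm_inv, norm_norm,
          inv_mul_cancel₀ (norm_ne_zero_iff.2 h0)]
      · rw [smul_smul, ← Complex.ofReal_mul, mul_inv_cancel₀ (norm_ne_zero_iff.2 h0),
          Complex.ofReal_one, one_smul]
  have hg : DifferentiableOn ℂ (fun l : ℂ => f (l • u)) (ball 0 1) := by
    have h1 := differentiableOn_slice hd (a := 0) (v := u) (s := ball 0 1) (fun l hl => by
      rw [zero_add, mem_ball_zero_iff, norm_smul, hu, mul_one]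
      exact mem_ball_zero_iff.1 hl)
    simpa using h1
  have hlz : l * (‖z‖ : ℂ) ∈ ball (0 : ℂ) 1 := by
    rw [mem_ball_zero_iff, norm_mul, Complex.norm_real, norm_norm]
    nlinarith [norm_nonneg l, norm_nonneg z]
  have hsum := Complex.hasSum_taylorSeries_on_ball hg hlz
  have hfz : f (l • z) = f ((l * (‖z‖ : ℂ)) • u) := by
    conv_lhs => rw [hzu, smul_smul]
  rw [hfz]
  have hfun : (fun k : ℕ => l ^ k * (((Nat.choose (n + k) n : ℝ) /
      (volume (ball (0 : E n) 1)).toReal : ℝ) *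
        ∫ w in ball (0 : E n) 1, (inner ℂ w z : ℂ) ^ k * f w)) =
      fun k : ℕ => ((k.factorial : ℂ)⁻¹ • (l * (‖z‖ : ℂ) - 0) ^ k •
        iteratedDeriv k (fun l : ℂ => f (l • u)) 0) := by
    funext k
    exact term_eq n k hn f hc hd z l u hu hzu
  rw [hfun]
  exact hsum

end Pool.Agent.H69.Ball
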